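import Pool.Agent.H59.HR.Stm

set_option autoImplicit false
set_option maxHeartbeats 4000000

open Matrix

namespace Pool.Agent.H29.HR

theorem pow_card_eq_zero {L : Type} [Field L] {n : ℕ} {X : Matrix (Fin n) (Fin n) L}
    (h : IsNilpotent X) : X ^ n = 0 := by
  have h1 := Matrix.isNilpotent_charpoly_sub_pow_of_isNilpotent h
  rw [isNilpotent_iff_eq_zero, sub_eq_zero, Fintype.card_fin] at h1
  have h2 := Matrix.aeval_self_charpoly X
  rw [h1, map_pow, Polynomial.aeval_X] at h2
  exact h2

theorem CY : _root_.HR.S_CY := by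
  intro L _ n X Y v hXY hX hY hspan hfin
  -- Y w is in the range of X
  have hYr : ∀ w : Fin n → L, ∃ u, X.mulVec u = Y.mulVec w := by
    have hmk : ∀ w : Fin n → L, (LinearMap.range X.mulVecLin).mkQ w = 0 ↔
        ∃ u, X.mulVec u = w := by
      intro w
      rw [Submodule.mkQ_apply, Submodule.Quotient.mk_eq_zero, LinearMap.mem_range]
      rfl
    obtain ⟨v0, hv0⟩ := (finrank_le_one_iff (K := L)).mp hfin
    obtain ⟨w0, rfl⟩ := (LinearMap.range X.mulVecLin).mkQ_surjective v0
    set mk := (LinearMap.range X.mulVecLin).mkQ with hmkdef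
    obtain ⟨c0, hc0⟩ := hv0 (mk (Y.mulVec w0))
    have hcw : ∀ (w : Fin n → L) (c : L), c • mk w0 = mk w → mk (Y.mulVec w) = c • mk (Y.mulVec w0) := by
      intro w c hc
      have h1 : mk (w - c • w0) = 0 := by rw [map_sub, map_smul, hc, sub_self]
      obtain ⟨u, hu⟩ := (hmk _).mp h1
      have h2 : mk (Y.mulVec (w - c • w0)) = 0 := by
        rw [hmk]
        refine ⟨Y.mulVec u, ?_⟩
        rw [mulVec_mulVec, hXY, ← mulVec_mulVec, hu]
      rw [mulVec_sub, mulVec_smul, map_sub, map_smul, sub_eq_zero] at h2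
      exact h2
    have key : ∀ w, mk (Y.mulVec w) = c0 • mk w := by
      intro w
      obtain ⟨c, hc⟩ := hv0 (mk w)
      rw [hcw w c hc, ← hc0, ← hc, smul_comm]
    have key2 : ∀ (N : ℕ) (w : Fin n → L), mk ((Y ^ N).mulVec w) = c0 ^ N • mk w := by
      intro N
      induction N with
      | zero => intro w; simp
      | succ N ih =>
        intro w
        rw [pow_succ', ← mulVec_mulVec, key, ih, smul_smul, ← pow_succ']
    obtain ⟨N, hN⟩ := hY
    have h3 : c0 ^ N • mk w0 = 0 := by
      rw [← key2 N w0, hN, zero_mulVec, map_zero]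
    intro w
    rw [← hmk]
    rcases smul_eq_zero.mp h3 with h4 | h4
    · have h5 : c0 = 0 := eq_zero_of_pow_eq_zero h4
      change mk (Y.mulVec w) = 0
      rw [key, h5, zero_smul]
    · obtain ⟨c, hc⟩ := hv0 (mk (Y.mulVec w))
      change mk (Y.mulVec w) = 0
      rw [← hc, h4, smul_zero]
  -- V = span v + X V
  have hV : ∀ u : Fin n → L, ∃ (c : L) (u' : Fin n → L), u = c • v + X.mulVec u' := by
    intro u
    have hu : u ∈ Submodule.span L {w | ∃ p q : ℕ, w = (X ^ p * Y ^ q).mulVec v} := by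
      rw [hspan]; trivial
    induction hu using Submodule.span_induction with
    | mem x hx =>
      obtain ⟨p, q, rfl⟩ := hx
      rcases p with _ | p
      · rcases q with _ | q
        · exact ⟨1, 0, by simp⟩
        · obtain ⟨u', hu'⟩ := hYr ((Y ^ q).mulVec v)
          refine ⟨0, u', ?_⟩
          rw [pow_zero, one_mul, pow_succ', ← mulVec_mulVec, zero_smul, zero_add, hu']
      · refine ⟨0, (X ^ p * Y ^ q).mulVec v, ?_⟩
        rw [pow_succ', mul_assoc, ← mulVec_mulVec, zero_smul, zero_add]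
    | zero => exact ⟨0, 0, by simp⟩
    | add x y _ _ hx hy =>
      obtain ⟨c, x', rfl⟩ := hx
      obtain ⟨d, y', rfl⟩ := hy
      exact ⟨c + d, x' + y', by rw [add_smul, mulVec_add]; abel⟩
    | smul a x _ hx =>
      obtain ⟨c, x', rfl⟩ := hx
      exact ⟨a * c, a • x', by rw [mulVec_smul, smul_add, smul_smul]⟩
  have hk : ∀ (k : ℕ) (u : Fin n → L), ∃ s ∈ Submodule.span L
      (Set.range fun b : Fin k => (X ^ (b : ℕ)).mulVec v), ∃ u', u = s + (X ^ k).mulVec u' := by
    intro k
    induction k with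
    | zero => intro u; exact ⟨0, Submodule.zero_mem _, u, by simp⟩
    | succ k ih =>
      intro u
      obtain ⟨s, hs, u', rfl⟩ := ih u
      obtain ⟨c, u'', rfl⟩ := hV u'
      refine ⟨s + c • (X ^ k).mulVec v, ?_, u'', ?_⟩
      · refine Submodule.add_mem _ ?_ (Submodule.smul_mem _ _ (Submodule.subset_span ⟨Fin.last k, by simp⟩))
        refine Submodule.span_mono ?_ hs
        rintro _ ⟨b, rfl⟩
        exact ⟨b.castSucc, by simp⟩
      · rw [mulVec_add, mulVec_smul, mulVec_mulVec, ← pow_succ]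
        abel
  have hX0 := pow_card_eq_zero hX
  have hspan' : ⊤ ≤ Submodule.span L (Set.range fun b : Fin n => (X ^ (b : ℕ)).mulVec v) := by
    intro u _
    obtain ⟨s, hs, u', rfl⟩ := hk n u
    rw [hX0, zero_mulVec, add_zero]
    exact hs
  have hli := linearIndependent_of_top_le_span_of_card_eq_finrank hspan' (by simp)
  have hcol : (_root_.HR.Kmat X v).col = fun b : Fin n => (X ^ (b : ℕ)).mulVec v := by
    funext b a
    rfl
  rw [← hcol, linearIndependent_cols_iff_isUnit] at hli
  exact ((isUnit_iff_isUnit_det _).mp hli).ne_zero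

end Pool.Agent.H29.HR
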