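import Pool.Agent.H59.HR.Stm

set_option autoImplicit false
set_option maxHeartbeats 4000000

open Matrix

namespace Pool.Agent.H29.HR

section JZ

variable {K : Type} [Field K] {n : ℕ} (X Y : Matrix (Fin n) (Fin n) K) (i j : Fin n → K)

/-- the functional `A ↦ j A i` -/
def phi (A : Matrix (Fin n) (Fin n) K) : K := j ⬝ᵥ (A.mulVec i)

theorem phi_sub (A B : Matrix (Fin n) (Fin n) K) : phi i j (A - B) = phi i j A - phi i j B := by
  unfold phi
  rw [Matrix.sub_mulVec, dotProduct_sub]

variable {X Y i j}

theorem phi_comm (h : X * Y - Y * X + vecMulVec i j = 0) (A B : Matrix (Fin n) (Fin n) K) :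
    phi i j (A * (X * Y) * B) = phi i j (A * (Y * X) * B) - phi i j A * phi i j B := by
  have e : X * Y = Y * X - vecMulVec i j := by
    rw [eq_sub_iff_add_eq, ← sub_eq_zero, ← h]; abel
  rw [e, mul_sub, sub_mul, phi_sub]
  congr 1
  rw [mul_vecMulVec, vecMulVec_mul]
  unfold phi
  rw [vecMulVec_mulVec]
  simp only [dotProduct_smul, MulOpposite.smul_eq_mul_unop, MulOpposite.unop_op, ← dotProduct_mulVec]

theorem tr_comm (h : X * Y - Y * X + vecMulVec i j = 0) (A B : Matrix (Fin n) (Fin n) K) :
    trace (A * (X * Y - Y * X) * B) = - phi i j (B * A) := by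
  have e : X * Y - Y * X = - vecMulVec i j := eq_neg_of_add_eq_zero_left h
  rw [e, trace_mul_comm, ← mul_assoc, mul_neg, trace_neg, mul_vecMulVec, trace_vecMulVec]
  unfold phi
  rw [dotProduct_comm]

variable (X Y)

/-- evaluation of words -/
def evw (w : List Bool) : Matrix (Fin n) (Fin n) K := (w.map (fun b => if b then X else Y)).prod

theorem evw_append (w w' : List Bool) : evw X Y (w ++ w') = evw X Y w * evw X Y w' := by
  unfold evw
  rw [List.map_append, List.prod_append]

theorem evw_cons (b : Bool) (w : List Bool) :
    evw X Y (b :: w) = (if b then X else Y) * evw X Y w := by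
  unfold evw
  rw [List.map_cons, List.prod_cons]

theorem evw_rep_true (p : ℕ) : evw X Y (List.replicate p true) = X ^ p := by
  unfold evw
  simp

theorem evw_rep_false (p : ℕ) : evw X Y (List.replicate p false) = Y ^ p := by
  unfold evw
  simp

variable {X Y}

/-- reordering of words of length `k` -/
theorem phi_perm (h : X * Y - Y * X + vecMulVec i j = 0) (k : ℕ)
    (hk : ∀ w : List Bool, w.length < k → phi i j (evw X Y w) = 0) {w w' : List Bool}
    (hp : w.Perm w') : ∀ w₁ w₂ : List Bool, w₁.length + w.length + w₂.length = k →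
      phi i j (evw X Y (w₁ ++ w ++ w₂)) = phi i j (evw X Y (w₁ ++ w' ++ w₂)) := by
  induction hp with
  | nil => intro w₁ w₂ _; rfl
  | @cons x l l' _ ih =>
    intro w₁ w₂ hlen
    have := ih (w₁ ++ [x]) w₂ (by simp at hlen ⊢; omega)
    simpa using this
  | swap x y l =>
    intro w₁ w₂ hlen
    simp only [List.length_cons] at hlen
    rw [evw_append, evw_append, evw_append, evw_append, evw_cons, evw_cons, evw_cons, evw_cons]
    have hA : phi i j (evw X Y w₁) = 0 ∨ True := Or.inr trivial
    have h1 : phi i j (evw X Y w₁) = 0 := hk _ (by omega)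
    cases x <;> cases y
    · rfl
    · -- y = true, x = false : X * (Y * ..)
      have := phi_comm h (evw X Y w₁) (evw X Y l * evw X Y w₂)
      rw [h1, zero_mul, sub_zero] at this
      simp only [if_true, Bool.false_eq_true, if_false]
      simpa only [mul_assoc] using this
    · have := phi_comm h (evw X Y w₁) (evw X Y l * evw X Y w₂)
      rw [h1, zero_mul, sub_zero] at this
      simp only [if_true, Bool.false_eq_true, if_false]
      simpa only [mul_assoc] using this.symm
    · rfl
  | trans h1 _ ih1 ih2 =>
    intro w₁ w₂ hlen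
    rw [ih1 w₁ w₂ hlen, ih2 w₁ w₂ (by rw [← h1.length_eq]; exact hlen)]

theorem phi_reorder (h : X * Y - Y * X + vecMulVec i j = 0) (k : ℕ)
    (hk : ∀ w : List Bool, w.length < k → phi i j (evw X Y w) = 0) {w w' : List Bool}
    (hp : w.Perm w') (hw : w.length = k) : phi i j (evw X Y w) = phi i j (evw X Y w') := by
  have := phi_perm h k hk hp [] [] (by simpa using hw)
  simpa using this

theorem tr_pow (h : X * Y - Y * X + vecMulVec i j = 0) (p q : ℕ)
    (hk : ∀ w : List Bool, w.length < p + q → phi i j (evw X Y w) = 0) :
    ∀ m s : ℕ, m + s = q + 1 →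
      trace (X ^ p * (X * Y ^ m - Y ^ m * X) * Y ^ s) = -((m : K) * phi i j (X ^ p * Y ^ q)) := by
  intro m
  induction m with
  | zero => intro s _; simp
  | succ m ih =>
    intro s hs
    have e : X * Y ^ (m + 1) - Y ^ (m + 1) * X =
        (X * Y ^ m - Y ^ m * X) * Y + Y ^ m * (X * Y - Y * X) := by
      rw [pow_succ]
      noncomm_ring
    have h1 := ih (s + 1) (by omega)
    have h2 := tr_comm h (X ^ p * Y ^ m) (Y ^ s)
    have h3 : phi i j (Y ^ s * (X ^ p * Y ^ m)) = phi i j (X ^ p * Y ^ q) := by
      have := phi_reorder (X := X) (Y := Y) h (p + q) hk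
        (w := List.replicate s false ++ (List.replicate p true ++ List.replicate m false))
        (w' := List.replicate p true ++ List.replicate q false) (by
          rw [List.perm_iff_count]
          intro b
          cases b
          · simp [List.count_append, List.count_replicate]; omega
          · simp [List.count_append, List.count_replicate]) (by simp; omega)
      simpa only [evw_append, evw_rep_true, evw_rep_false] using this
    rw [h3] at h2
    rw [e, mul_add, add_mul, trace_add]
    have e1 : X ^ p * ((X * Y ^ m - Y ^ m * X) * Y) * Y ^ s =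
        X ^ p * (X * Y ^ m - Y ^ m * X) * Y ^ (s + 1) := by
      rw [pow_succ' Y s]
      simp only [mul_assoc]
    have e2 : X ^ p * (Y ^ m * (X * Y - Y * X)) * Y ^ s =
        X ^ p * Y ^ m * (X * Y - Y * X) * Y ^ s := by
      simp only [mul_assoc]
    rw [e1, e2, h1, h2]
    push_cast
    ring

theorem phi_zero [CharZero K] (h : X * Y - Y * X + vecMulVec i j = 0) :
    ∀ k : ℕ, ∀ w : List Bool, w.length < k → phi i j (evw X Y w) = 0 := by
  intro k
  induction k with
  | zero => intro w hw; exact absurd hw (Nat.not_lt_zero _)
  | succ k ih =>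
    intro w hw
    rcases Nat.lt_succ_iff_lt_or_eq.mp hw with hw | hw
    · exact ih w hw
    · set p := w.count true with hp
      set q := w.count false with hq
      have hpq : p + q = k := by
        rw [← hw, hp, hq]
        exact List.count_true_add_count_false (l := w)
      have hperm : w.Perm (List.replicate p true ++ List.replicate q false) := by
        rw [List.perm_iff_count]
        intro b
        cases b
        · simp [List.count_append, List.count_replicate, hq]
        · simp [List.count_append, List.count_replicate, hp]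
      rw [phi_reorder h k ih hperm hw, evw_append, evw_rep_true, evw_rep_false]
      have ih' : ∀ w : List Bool, w.length < p + q → phi i j (evw X Y w) = 0 := by
        rw [hpq]
        exact ih
      have h1 := tr_pow h p q ih' (q + 1) 0 rfl
      have h2 : trace (X ^ p * (X * Y ^ (q + 1) - Y ^ (q + 1) * X) * Y ^ 0) = 0 := by
        rw [pow_zero, mul_one, mul_sub, trace_sub, sub_eq_zero, ← mul_assoc, ← mul_assoc,
          trace_mul_comm (X ^ p * Y ^ (q + 1)) X, ← mul_assoc, ← pow_succ, ← pow_succ']
      rw [h2] at h1
      have h3 : ((q + 1 : ℕ) : K) * phi i j (X ^ p * Y ^ q) = 0 := by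
        have := h1.symm
        exact neg_eq_zero.mp this
      rcases mul_eq_zero.mp h3 with h4 | h4
      · exact absurd h4 (Nat.cast_ne_zero.mpr (by omega))
      · exact h4

end JZ

theorem JZ : _root_.HR.S_JZ := by
  intro K _ _ n X Y i j h hspan
  have hz : ∀ p q : ℕ, j ⬝ᵥ ((X ^ p * Y ^ q).mulVec i) = 0 := by
    intro p q
    have := phi_zero h (p + q + 1) (List.replicate p true ++ List.replicate q false) (by simp)
    rw [evw_append, evw_rep_true, evw_rep_false] at this
    exact this
  have hall : ∀ v : Fin n → K, j ⬝ᵥ v = 0 := by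
    intro v
    have hv : v ∈ Submodule.span K {v | ∃ p q : ℕ, v = (X ^ p * Y ^ q).mulVec i} := by
      rw [hspan]; trivial
    induction hv using Submodule.span_induction with
    | mem x hx =>
      obtain ⟨p, q, rfl⟩ := hx
      exact hz p q
    | zero => exact dotProduct_zero j
    | add x y _ _ hx hy => rw [dotProduct_add, hx, hy, add_zero]
    | smul a x _ hx => rw [dotProduct_smul, hx, smul_zero]
  exact dotProduct_eq_zero j hall

end Pool.Agent.H29.HR
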