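import Pool.Agent.H59.HR.Stm

set_option autoImplicit false
set_option maxHeartbeats 4000000

open Polynomial

namespace Pool.Agent.H29.HR

theorem trace_aeval_mul {K : Type} [Field K] {n : ℕ} (M : Matrix (Fin n) (Fin n) K)
    (h : ∀ k, 1 ≤ k → Matrix.trace (M ^ k) = 0) (s : K[X]) :
    Matrix.trace (aeval M s * M) = 0 := by
  induction s using Polynomial.induction_on' with
  | add p q hp hq => rw [map_add, add_mul, Matrix.trace_add, hp, hq, add_zero]
  | monomial k c =>
    rw [aeval_monomial, mul_assoc, ← pow_succ, Algebra.algebraMap_eq_smul_one, smul_mul_assoc,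
      one_mul, Matrix.trace_smul, h (k + 1) (by omega), smul_zero]

theorem TR : _root_.HR.S_TR := by
  intro K _ _ n M h
  have hp : M.charpoly ≠ 0 := (Matrix.charpoly_monic M).ne_zero
  obtain ⟨q, hq, hq'⟩ := Polynomial.exists_eq_pow_rootMultiplicity_mul_and_not_dvd M.charpoly hp 0
  set r := Polynomial.rootMultiplicity 0 M.charpoly with hr
  rw [C_0, sub_zero] at hq hq'
  have hcop : IsCoprime ((X : K[X]) ^ (r + 1)) q :=
    IsCoprime.pow_left ((Irreducible.coprime_iff_not_dvd irreducible_X).mpr hq')
  obtain ⟨a, b, hab⟩ := hcop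
  have hCH : aeval M M.charpoly = 0 := Matrix.aeval_self_charpoly M
  have hXq : aeval M (X ^ r * q) = 0 := by rw [← hq]; exact hCH
  have key : aeval M (a * X ^ (r + 1)) * aeval M (b * q) = 0 := by
    rw [← map_mul, show a * X ^ (r + 1) * (b * q) = (a * X * b) * (X ^ r * q) by ring, map_mul, hXq,
      mul_zero]
  have hsum : aeval M (a * X ^ (r + 1)) + aeval M (b * q) = 1 := by
    rw [← map_add, hab, map_one]
  set e := aeval M (a * X ^ (r + 1)) with he
  have hidem : IsIdempotentElem e := by
    have : aeval M (b * q) = 1 - e := by rw [← hsum]; abel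
    rw [this, mul_sub, mul_one] at key
    exact (sub_eq_zero.mp key).symm
  have htr : Matrix.trace e = 0 := by
    rw [he, show a * X ^ (r + 1) = a * X ^ r * X by ring, map_mul, aeval_X]
    exact trace_aeval_mul M h _
  have hidem' : IsIdempotentElem (Matrix.toLin' e) := by
    have := congrArg Matrix.toLin' hidem.eq
    rw [Matrix.toLin'_mul] at this
    exact this
  have htr' : LinearMap.trace K (Fin n → K) (Matrix.toLin' e) = 0 := by
    rw [Matrix.trace_toLin'_eq]
    exact htr
  have he0 : Matrix.toLin' e = 0 :=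
    (LinearMap.IsIdempotentElem.trace_eq_zero_iff hidem').mp htr'
  have he0' : e = 0 := by
    apply Matrix.toLin'.injective
    rw [he0, map_zero]
  rw [he0', zero_add] at hsum
  refine ⟨r, ?_⟩
  have h1 : aeval M (X ^ r : K[X]) = M ^ r := by rw [map_pow, aeval_X]
  have h2 : aeval M (X ^ r : K[X]) * aeval M (b * q) = 0 := by
    rw [← map_mul, show (X : K[X]) ^ r * (b * q) = b * (X ^ r * q) by ring, map_mul, hXq, mul_zero]
  rw [hsum, mul_one, h1] at h2
  exact h2

end Pool.Agent.H29.HR
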